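import Pool.Agent.Run7.h3.GT.Final

/-!
# The weak Manin conjecture for configurations of points and subspaces in projective space

Let `F` be a number field, `2 ≤ k`, `k + 2 ≤ n`, `5 ≤ n`, and let the `n` columns of the
`k × n` matrices be divided into `s` nonempty blocks, the block `b` having `n_b` columns. The
varieties `X` considered here are the quotients `(ℙ^(k n_1 - 1) × ... × ℙ^(k n_s - 1)) // SL_k`,
which are also the quotients of the Grassmannian `G(k, n)` by the torus `𝔾_m^s` acting by the
scalings of the blocks. When every block is one column, `X` is the space of configurations of `n`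
points in `ℙ^(k - 1)`. The Cox ring of `X` is the ring generated by the maximal minors of the
matrix, the class of a divisor is the vector of its degrees in the `s` blocks (the sum of which is
divisible by `k`), and a minor has the degree in `b` equal to the number of its columns in `b`.
The cone of effective classes is generated by the classes of the minors
(`0 ≤ x_b`, `k x_b ≤ n_b ∑ x_c`), and the canonical class is `-(k n_1, ..., k n_s)`.

The open set `U` of `X` is the one where no maximal minor vanishes. Its rational points are the
`k × n` matrices over `F` with nonzero maximal minors, up to the left action of `GL_k(F)` and the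
multiplication of the blocks by elements of `F*`. The height of the class `d` is the Weil height
relative to `F` given by all the monomials of degree `d` in the minors.
-/

set_option autoImplicit false

namespace Pool.Agent.Results.MP_18ea5f_nt.PointConfigurations

open Finset

/-- the maximal minor of `V` with the columns `f 0, f 1, ..., f (k - 1)` -/
def minor {F : Type} [Field F] {k n : ℕ} (V : Matrix (Fin k) (Fin n) F) (f : Fin k → Fin n) : F :=
  (V.submatrix id f).det

/-- the exponents of the monomials in the minors which have degree `d b` in the block `b`; the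
block of the column `i` is `β i` -/
def Mon {n s : ℕ} (k : ℕ) (β : Fin n → Fin s) (d : Fin s → ℕ) : Type :=
  {m : (Fin k → Fin n) → ℕ // ∀ b, ∑ f, m f * (univ.filter fun l => β (f l) = b).card = d b}

/-- the Weil height relative to `F` defined by all monomials of degree `d` in the minors -/
noncomputable def ht {F : Type} [Field F] [NumberField F] {k n s : ℕ} (β : Fin n → Fin s)
    (d : Fin s → ℕ) (V : Matrix (Fin k) (Fin n) F) : ℝ :=
  Height.mulHeight fun m : Mon k β d => ∏ f, minor V f ^ m.1 f

/-- matrices which represent the same point: change of the basis of `F^k`, scaling of the blocks -/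
def Equiv {F : Type} [Field F] {k n s : ℕ} (β : Fin n → Fin s)
    (V V' : Matrix (Fin k) (Fin n) F) : Prop :=
  ∃ (g : Matrix (Fin k) (Fin k) F) (t : Fin s → F), g.det ≠ 0 ∧ (∀ b, t b ≠ 0) ∧
    V' = g * V * Matrix.diagonal fun i => t (β i)

/-- the `F`-rational points (as classes of matrices) of height at most `B` on the open set where
no maximal minor vanishes -/
def points (F : Type) [Field F] [NumberField F] {n s : ℕ} (k : ℕ) (β : Fin n → Fin s)
    (d : Fin s → ℕ) (B : ℝ) : Set (Set (Matrix (Fin k) (Fin n) F)) :=
  {P | ∃ V : Matrix (Fin k) (Fin n) F, (∀ f : Fin k → Fin n, Function.Injective f → minor V f ≠ 0) ∧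
    P = {V' | Equiv β V V'} ∧ ht β d V ≤ B}

/-- the number of the columns in the block `b` -/
def blk {n s : ℕ} (β : Fin n → Fin s) (b : Fin s) : ℕ := (univ.filter fun i => β i = b).card

/-- the real class `x` is in the cone generated by the classes of the minors -/
def Eff {n s : ℕ} (k : ℕ) (β : Fin n → Fin s) (x : Fin s → ℝ) : Prop :=
  ∀ b, 0 ≤ x b ∧ k * x b ≤ blk β b * ∑ c, x c

/-- the class `d` is big: it lies in the interior of this cone -/
def Big {n s : ℕ} (k : ℕ) (β : Fin n → Fin s) (d : Fin s → ℕ) : Prop :=
  ∀ b, 0 < d b ∧ k * d b < blk β b * ∑ c, d c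

/-- the Fujita invariant of the class `d`; the canonical class is `-(k n_1, ..., k n_s)` -/
noncomputable def fuj {n s : ℕ} (k : ℕ) (β : Fin n → Fin s) (d : Fin s → ℕ) : ℝ :=
  sInf {t : ℝ | Eff k β fun b => t * d b - k * blk β b}

/-- **The weak Manin conjecture for configurations in projective space over number fields, for all
big classes and Weil heights.** -/
theorem result (F : Type) [Field F] [NumberField F] (k n s : ℕ) (hk : 2 ≤ k) (hn : k + 2 ≤ n)
    (hn5 : 5 ≤ n) (β : Fin n → Fin s) (hβ : Function.Surjective β) (d : Fin s → ℕ)
    (hdvd : k ∣ ∑ b, d b) (hd : Big k β d) :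
    ∃ C : ℝ, ∀ B : ℝ, 1 ≤ B → (points F k β d B).Finite ∧
      ((points F k β d B).ncard : ℝ) ≤ C * B ^ fuj k β d * (1 + Real.log B) ^ (s - 1) := by
  obtain ⟨C, hC, h⟩ := Run7.h3.GT.final F (k := k) (by omega)
    (by rw [Fintype.card_fin]; omega) β hβ d hdvd (fun b => (hd b).1) (fun b => (hd b).2)
  refine ⟨C, fun B hB => ?_⟩
  have h1 := h B hB
  rw [Fintype.card_fin] at h1
  exact h1

end Pool.Agent.Results.MP_18ea5f_nt.PointConfigurations
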